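import Mathlib

set_option autoImplicit false

namespace Pool.Agent.H.MP_801c54_lc

open Classical Cardinal Set

theorem exists_free {J : Type} (hJ : #J ≤ 𝔠) (g : J → (ℕ → ℕ) → ℕ → (ℕ → ℕ)) :
    ∃ u : J → (ℕ → ℕ), ∀ j j', j ≠ j' → ∀ i, u j ≠ g j' (u j') i ∨ u j' ≠ g j (u j) i := by
  let I : Type := (#J).ord.ToType
  obtain ⟨e⟩ : Nonempty (I ≃ J) := Cardinal.eq.1 (mk_ord_toType _)
  have hI : ∀ a : I, #(Iio a) < 𝔠 := fun a => lt_of_lt_of_le (mk_Iio_toType_ord_lt a) hJ
  have step : ∀ (a : I) (prev : ∀ c, c < a → (ℕ → ℕ)), ∃ r : ℕ → ℕ,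
      r ∉ range fun c : Iio a × ℕ => g (e c.1) (prev c.1.1 c.1.2) c.2 := by
    intro a prev
    have h1 : #(range fun c : Iio a × ℕ => g (e c.1) (prev c.1.1 c.1.2) c.2) <
        #(univ : Set (ℕ → ℕ)) := by
      refine mk_range_le.trans_lt ?_
      rw [mk_univ]
      simp only [mk_prod, lift_id, mk_pi, prod_const, mk_nat, aleph0_power_aleph0]
      exact mul_lt_of_lt aleph0_le_continuum (hI a) aleph0_lt_continuum
    obtain ⟨r, -, hr⟩ := not_subset.1 fun h => (mk_le_mk_of_subset h).not_gt h1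
    exact ⟨r, hr⟩
  choose F hF using step
  let x : I → (ℕ → ℕ) := (wellFounded_lt (α := I)).fix F
  have hx : ∀ a, x a = F a (fun c _ => x c) := fun a => WellFounded.fix_eq _ F a
  have h2 : ∀ a b, a < b → ∀ i, x b ≠ g (e a) (x a) i := fun a b h i he => by
    have := hF b fun c _ => x c
    rw [← hx] at this
    exact this ⟨(⟨a, h⟩, i), he.symm⟩
  refine ⟨fun j => x (e.symm j), fun j j' hne i => ?_⟩
  rcases lt_trichotomy (e.symm j) (e.symm j') with h | h | h
  · right; simpa using h2 _ _ h i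
  · exact absurd (e.symm.injective h) hne
  · left; simpa using h2 _ _ h i

theorem exists_play {M : Type} (G : List M → M) :
    ∃ f : ℕ → M, ∀ n, f n = G (List.ofFn fun i : Fin n => f i) := by
  let f : ℕ → M := (wellFounded_lt (α := ℕ)).fix
    fun n prev => G (List.ofFn fun i : Fin n => prev i i.2)
  exact ⟨f, fun n => WellFounded.fix_eq _ _ n⟩

/-- payoff set built from a sequence of relations -/
def Pay (T : ℕ → (ℕ → ℕ) → (ℕ → ℕ) → Prop) : Set (ℕ → ℕ) :=
  {p | if p 2 = 0 then T (p 1) (fun k => p (2 * k + 3)) (fun k => p (2 * k + 4))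
    else ¬ T (p 1) (fun k => p (2 * k + 4)) (fun k => p (2 * k + 3))}

theorem cross (T : ℕ → (ℕ → ℕ) → (ℕ → ℕ) → Prop) (p q : ℕ → ℕ) (h1 : p 1 = q 1) (hp : p 2 = 0)
    (hq : q 2 = 1) (e1 : ∀ k, p (2 * k + 4) = q (2 * k + 3))
    (e2 : ∀ k, q (2 * k + 4) = p (2 * k + 3)) : p ∈ Pay T ∨ q ∈ Pay T := by
  simp only [Pay, mem_ofPred_eq, hp, hq, if_true, one_ne_zero, if_false, e1, e2, h1]
  exact Classical.em _

theorem getD_ofFn {M : Type} (f : ℕ → M) (d : M) {n k : ℕ} (h : k < n) :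
    (List.ofFn fun i : Fin n => f i).getD k d = f k := by
  rw [List.getD_eq_getElem _ _ (by simpa using h)]; simp

theorem one_wins {K : Type} [Uncountable K] (T : ℕ → (ℕ → ℕ) → (ℕ → ℕ) → Prop) :
    ∃ σ : List (K → ℕ) → (K → ℕ), ∀ f : ℕ → K → ℕ,
      (∀ n : ℕ, f (2 * n) = σ (List.ofFn fun i : Fin (2 * n) => f i)) →
        ∃ a : K, (fun n : ℕ => f n a) ∈ Pay T := by
  have hp : ∀ h : K → ℕ, ∃ a b, h a = h b ∧ a ≠ b := fun h => by
    have := not_injective_uncountable_countable h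
    unfold Function.Injective at this
    push Not at this
    exact this
  choose A B hAB hne using hp
  refine ⟨fun l c => if l.length = 2 then (if c = A (l.getD 1 0) then 0 else 1)
    else l.getD (l.length - 1) 0 (if c = A (l.getD 1 0) then B (l.getD 1 0) else A (l.getD 1 0)),
    fun f hf => ?_⟩
  have t : ∀ c, f 2 c = if c = A (f 1) then 0 else 1 := fun c => by
    have := congrFun (hf 1) c
    simp only [List.length_ofFn, if_true] at this
    rwa [getD_ofFn f 0 (by norm_num)] at this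
  have s : ∀ k c, f (2 * k + 4) c = f (2 * k + 3) (if c = A (f 1) then B (f 1) else A (f 1)) := by
    intro k c
    have := congrFun (hf (k + 2)) c
    simp only [List.length_ofFn] at this
    rw [if_neg (by omega), getD_ofFn f 0 (by omega), getD_ofFn f 0 (by omega)] at this
    exact this
  rcases cross T (fun n => f n (A (f 1))) (fun n => f n (B (f 1))) (hAB _) (by simp [t])
    (by simp [t, (hne (f 1)).symm]) (fun k => by simp [s])
    (fun k => by simp [s, (hne (f 1)).symm]) with h | h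
  · exact ⟨_, h⟩
  · exact ⟨_, h⟩

theorem two_not {K : Type} [Nonempty K] (T : ℕ → (ℕ → ℕ) → (ℕ → ℕ) → Prop) :
    ¬ ∃ τ : List (K → ℕ) → (K → ℕ), ∀ f : ℕ → K → ℕ,
      (∀ n : ℕ, f (2 * n + 1) = τ (List.ofFn fun i : Fin (2 * n + 1) => f i)) →
        ∀ a : K, (fun n : ℕ => f n a) ∉ Pay T := by
  rintro ⟨τ, hτ⟩
  obtain ⟨a⟩ := ‹Nonempty K›
  obtain ⟨f, hf⟩ := exists_play (M := (K → ℕ) × (K → ℕ)) fun l =>
    if l.length % 2 = 1 then (τ (l.map Prod.fst), τ (l.map Prod.snd))
    else if l.length = 0 then (0, 0) else if l.length = 2 then (0, 1)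
    else (l.getD (l.length - 1) (0, 0)).swap
  have odd : ∀ n, f (2 * n + 1) = (τ (List.ofFn fun i : Fin (2 * n + 1) => (f i).1),
      τ (List.ofFn fun i : Fin (2 * n + 1) => (f i).2)) := by
    intro n
    rw [hf, List.length_ofFn, if_pos (by omega), List.map_ofFn, List.map_ofFn]
    rfl
  have f0 : f 0 = (0, 0) := by rw [hf]; simp
  have f2 : f 2 = (0, 1) := by rw [hf, List.length_ofFn]; simp
  have ev : ∀ k, f (2 * k + 4) = (f (2 * k + 3)).swap := by
    intro k
    rw [hf, List.length_ofFn, if_neg (by omega), if_neg (by omega), if_neg (by omega),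
      getD_ofFn f _ (by omega)]
    rfl
  have h1 := hτ (fun n => (f n).1) (fun n => congrArg Prod.fst (odd n)) a
  have h2 := hτ (fun n => (f n).2) (fun n => congrArg Prod.snd (odd n)) a
  rcases cross T (fun n => (f n).1 a) (fun n => (f n).2 a)
    (by have := odd 0; simp only [mul_zero, zero_add] at this; rw [this]; simp [f0])
    (by simp [f2]) (by simp [f2]) (fun k => by simp [ev]) (fun k => by simp [ev]) with h | h
  · exact h1 h
  · exact h2 h

theorem one_not : ∃ T : ℕ → (ℕ → ℕ) → (ℕ → ℕ) → Prop,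
    ¬ ∃ σ : List (ℕ → ℕ) → (ℕ → ℕ), ∀ f : ℕ → ℕ → ℕ,
      (∀ n : ℕ, f (2 * n) = σ (List.ofFn fun i : Fin (2 * n) => f i)) →
        ∃ a : ℕ, (fun n : ℕ => f n a) ∈ Pay T := by
  let J : Type := (ℕ → ℕ) × (List ℕ → ℕ → ℕ)
  have hJ : #J ≤ 𝔠 := by simp [J]
  let g : J → (ℕ → ℕ) → ℕ → (ℕ → ℕ) :=
    fun j u i k => j.2 (List.ofFn fun m : Fin (k + 1) => u m) i
  obtain ⟨u, hu⟩ := exists_free hJ g
  refine ⟨fun i z y => ∃ j : J, j.1 i ≠ 0 ∧ z = g j (u j) i ∧ y = u j, ?_⟩
  rintro ⟨σ, hσ⟩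
  have hpl := fun v : ℕ → ℕ => exists_play (M := ℕ → ℕ) fun l =>
    if l.length % 2 = 0 then σ l else if l.length = 1 then id else fun _ => v ((l.length - 3) / 2)
  choose P hP using hpl
  have ev : ∀ v n, P v (2 * n) = σ (List.ofFn fun i : Fin (2 * n) => P v i) := fun v n => by
    rw [hP, List.length_ofFn, if_pos (by omega)]
  have p1 : ∀ v, P v 1 = id := fun v => by rw [hP, List.length_ofFn]; simp
  have od : ∀ v k, P v (2 * k + 3) = fun _ => v k := fun v k => by
    rw [hP, List.length_ofFn, if_neg (by omega), if_neg (by omega)]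
    have : (2 * k + 3 - 3) / 2 = k := by omega
    rw [this]
  have loc : ∀ v w k, (∀ m < k, v m = w m) → ∀ n, n < 2 * k + 3 → P v n = P w n := by
    intro v w k h n
    induction n using Nat.strong_induction_on with
    | _ n ih =>
      intro hn
      have e : (List.ofFn fun i : Fin n => P v i) = List.ofFn fun i : Fin n => P w i := by
        congr 1; funext i; exact ih i i.2 (by omega)
      rw [hP v, hP w, e, List.length_ofFn]
      split_ifs with h1 h2
      · rfl
      · rfl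
      · rw [h _ (by omega)]
  let j : J := (P 0 2, fun l => P (fun m => l.getD m 0) (2 * l.length + 2))
  have hg : ∀ v i k, g j v i k = P v (2 * k + 4) i := by
    intro v i k
    simp only [g, j, List.length_ofFn]
    rw [loc _ v (k + 1) (fun m hm => getD_ofFn v 0 hm) _ (by omega)]
    rfl
  have ht : P (u j) 2 = j.1 := loc _ _ 0 (fun m hm => by omega) 2 (by omega)
  obtain ⟨a, ha⟩ := hσ (P (u j)) (ev _)
  simp only [Pay, mem_ofPred_eq, p1, od, ht, id] at ha
  have hz : (fun k => P (u j) (2 * k + 4) a) = g j (u j) a := funext fun k => (hg _ _ _).symm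
  rw [hz] at ha
  split_ifs at ha with h0
  · obtain ⟨j', h1, h2, h3⟩ := ha
    have hne : j ≠ j' := fun h => h1 (h ▸ h0)
    rcases hu j j' hne a with h | h
    · exact h h2
    · exact h h3.symm
  · exact ha ⟨j, h0, rfl, rfl⟩

end Pool.Agent.H.MP_801c54_lc
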